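import Pool.Agent.Strip051.LB.B0m1p_pm.Defs

/-! # LINE boxes B0m1p_pm: part 2 -/

namespace Pool.Agent.Strip051.LB.B0m1p_pm

open Pool.Agent.Strip051.Box Pool.Agent.Strip051.Box2

set_option maxRecDepth 100000

theorem c7 : chk f 60 (L1 (R1 (R2 (R1 (L2 (L2 (L1 (R2 (L2 (L1 (R1 (L2 (R1 b0))))))))))))) = true := by decide +kernel

theorem c8 : chk f 60 (L2 (R1 (R1 (R2 (R1 (L2 (L2 (L1 (R2 (L2 (L1 (R1 (L2 (R1 b0)))))))))))))) = true := by decide +kernel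

theorem c9 : chk f 60 (L2 (L1 (R2 (R1 (R1 (R2 (R1 (L2 (L2 (L1 (R2 (L2 (L1 (R1 (L2 (R1 b0)))))))))))))))) = true := by decide +kernel

theorem c10 : chk f 60 (L1 (R2 (L1 (R2 (R1 (R1 (R2 (R1 (L2 (L2 (L1 (R2 (L2 (L1 (R1 (L2 (R1 b0))))))))))))))))) = true := by decide +kernel

theorem c11 : chk f 60 (R1 (R2 (L1 (R2 (R1 (R1 (R2 (R1 (L2 (L2 (L1 (R2 (L2 (L1 (R1 (L2 (R1 b0))))))))))))))))) = true := by decide +kernel

theorem c12 : chk f 60 (L1 (R1 (R2 (R1 (R1 (R2 (R1 (L2 (L2 (L1 (R2 (L2 (L1 (R1 (L2 (R1 b0)))))))))))))))) = true := by decide +kernel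

theorem c13 : chk f 60 (R1 (R1 (R2 (R1 (R1 (R2 (R1 (L2 (L2 (L1 (R2 (L2 (L1 (R1 (L2 (R1 b0)))))))))))))))) = true := by decide +kernel

theorem c14 : chk f 60 (R2 (L2 (L1 (R2 (L2 (L1 (R1 (L2 (R1 b0))))))))) = true := by decide +kernel

theorem c15 : chk f 60 (R2 (L1 (R2 (L2 (L1 (R1 (L2 (R1 b0)))))))) = true := by decide +kernel

theorem c16 : chk f 60 (L2 (L1 (L2 (L1 (L2 (R1 (R2 (L2 (L1 (R1 (L2 (R1 b0)))))))))))) = true := by decide +kernel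

theorem c17 : chk f 60 (L2 (L1 (R2 (L1 (L2 (L1 (L2 (R1 (R2 (L2 (L1 (R1 (L2 (R1 b0)))))))))))))) = true := by decide +kernel

theorem c18 : chk f 60 (L2 (L1 (L1 (R2 (L1 (R2 (L1 (L2 (L1 (L2 (R1 (R2 (L2 (L1 (R1 (L2 (R1 b0))))))))))))))))) = true := by decide +kernel

end Pool.Agent.Strip051.LB.B0m1p_pm
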